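import Mathlib

open MeasureTheory ProbabilityTheory Set

namespace Pool.Agent.Results.MP_d5803c_pr.NoFiniteRankCover

noncomputable section

universe u v

section algebra

/-- The bounded measurable functions `S^n → ℝ`, as a subspace of all functions `S^n → ℝ`
(functions equal almost surely are not identified). -/
def boundedMeasurable (S : Type u) [MeasurableSpace S] (n : ℕ) :
    Submodule ℝ ((Fin n → S) → ℝ) where
  carrier := {f | Measurable f ∧ ∃ C : ℝ, ∀ x, |f x| ≤ C}
  add_mem' := by
    rintro f g ⟨hf, C, hC⟩ ⟨hg, D, hD⟩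
    refine ⟨hf.add hg, C + D, fun x => ?_⟩
    exact (abs_add_le _ _).trans (add_le_add (hC x) (hD x))
  zero_mem' := ⟨measurable_const, 0, fun x => by simp⟩
  smul_mem' := by
    rintro c f ⟨hf, C, hC⟩
    refine ⟨hf.const_smul c, |c| * C, fun x => ?_⟩
    simp only [Pi.smul_apply, smul_eq_mul, abs_mul]
    exact mul_le_mul_of_nonneg_left (hC x) (abs_nonneg c)

/-- The real vector space `A_n` of bounded measurable functions `f : S^n → ℝ`. For `n = 0` this
is the space of functions on a point, that is `ℝ`. -/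
def An (S : Type u) [MeasurableSpace S] (n : ℕ) : Type u := ↥(boundedMeasurable S n)

instance (S : Type u) [MeasurableSpace S] (n : ℕ) : AddCommGroup (An S n) :=
  inferInstanceAs (AddCommGroup ↥(boundedMeasurable S n))

instance (S : Type u) [MeasurableSpace S] (n : ℕ) : Module ℝ (An S n) :=
  inferInstanceAs (Module ℝ ↥(boundedMeasurable S n))

/-- The space `A = ⊕ A_n` of finite formal sums. -/
abbrev A (S : Type u) [MeasurableSpace S] := DirectSum ℕ (fun n => An S n)

variable {S : Type u} [MeasurableSpace S]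

lemma An.ext' {n : ℕ} {f g : An S n} (h : ∀ x, f.1 x = g.1 x) : f = g :=
  Subtype.ext (funext h)

lemma An.add_val {n : ℕ} (f g : An S n) (x : Fin n → S) : (f + g).1 x = f.1 x + g.1 x := rfl

lemma An.smul_val {n : ℕ} (c : ℝ) (f : An S n) (x : Fin n → S) : (c • f).1 x = c * f.1 x := rfl

/-- Concatenation `(f g)(x_1, …, x_{m+n}) = f(x_1, …, x_m) g(x_{m+1}, …, x_{m+n})`, as a
bilinear map `A_m × A_n → A_{m+n}`. -/
def concat (m n : ℕ) : An S m →ₗ[ℝ] An S n →ₗ[ℝ] An S (m + n) :=
  LinearMap.mk₂ ℝ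
    (fun f g => ⟨fun x => f.1 (fun i => x (Fin.castAdd n i)) * g.1 (fun j => x (Fin.natAdd m j)), by
      obtain ⟨f, hf, C, hC⟩ := f
      obtain ⟨g, hg, D, hD⟩ := g
      refine ⟨?_, C * D, fun x => ?_⟩
      · exact (hf.comp (measurable_pi_lambda _ fun i => measurable_pi_apply _)).mul
          (hg.comp (measurable_pi_lambda _ fun i => measurable_pi_apply _))
      · simp only [abs_mul]
        exact mul_le_mul (hC _) (hD _) (abs_nonneg _)
          ((abs_nonneg _).trans (hC (fun i => x (Fin.castAdd n i))))⟩)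
    (fun f f' g => An.ext' fun x => add_mul _ _ _)
    (fun c f g => An.ext' fun x => mul_assoc c _ _)
    (fun f g g' => An.ext' fun x => mul_add _ _ _)
    (fun c f g => An.ext' fun x => mul_left_comm _ c _)

/-- The product of `A`: the bilinear extension of concatenation. -/
def mul : A S →ₗ[ℝ] A S →ₗ[ℝ] A S :=
  DirectSum.toModule ℝ ℕ (A S →ₗ[ℝ] A S) fun m =>
    (DirectSum.toModule ℝ ℕ (An S m →ₗ[ℝ] A S) fun n =>
      ((concat m n).compr₂ (DirectSum.lof ℝ ℕ (fun k => An S k) (m + n))).flip).flip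

variable {Ω : Type v} [MeasurableSpace Ω] (P : Measure Ω) [IsProbabilityMeasure P]
  (Y : ℕ → Ω → S) (hY : ∀ n, Measurable (Y n))

lemma measurable_block {n : ℕ} (hY : ∀ n, Measurable (Y n)) (f : An S n) (m : ℕ) :
    Measurable fun ω => f.1 (fun i : Fin n => Y (m + i) ω) :=
  f.2.1.comp (measurable_pi_lambda _ fun _ => hY _)

lemma integrable_block {n : ℕ} (hY : ∀ n, Measurable (Y n)) (f : An S n) (m : ℕ) :
    Integrable (fun ω => f.1 (fun i : Fin n => Y (m + i) ω)) P := by
  obtain ⟨C, hC⟩ := f.2.2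
  exact Integrable.of_bound (measurable_block Y hY f m).aestronglyMeasurable C
    (Filter.Eventually.of_forall fun ω => hC _)

/-- The functional `E` on `A`: `E f = 𝔼 f(Y_1, …, Y_n)` for `f ∈ A_n`. The random variable
`Y_{k+1}` of the problem is written `Y k` here. -/
def E : A S →ₗ[ℝ] ℝ :=
  DirectSum.toModule ℝ ℕ ℝ fun n =>
    { toFun := fun f => ∫ ω, f.1 (fun i : Fin n => Y i ω) ∂P
      map_add' := by
        intro f g
        have h := integral_add (integrable_block P Y hY f 0) (integrable_block P Y hY g 0)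
        simpa only [zero_add, An.add_val] using h
      map_smul' := by
        intro c f
        simp only [An.smul_val, integral_const_mul, smul_eq_mul, RingHom.id_apply] }

/-- The subspace `J = {η : E(ξ η) = 0 for all ξ ∈ A}`. -/
def J : Submodule ℝ (A S) where
  carrier := {η | ∀ ξ : A S, E P Y hY (mul ξ η) = 0}
  add_mem' := by
    intro a b ha hb ξ
    rw [map_add, map_add, ha ξ, hb ξ, add_zero]
  zero_mem' := by intro ξ; simp
  smul_mem' := by
    intro c a ha ξ
    rw [map_smul, map_smul, ha ξ, smul_zero]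

/-- The space `L = A / J`. -/
abbrev L := A S ⧸ J P Y hY

end algebra

section markov

variable {Ω' : Type v} {S' : Type u} [MeasurableSpace Ω'] [MeasurableSpace S']

/-- `X = (X_1, X_2, …)` (written `X 0, X 1, …` here) is a time-homogeneous Markov process with
transition function `κ`, under the probability measure `Q`: for all `n ≥ 1`,
`Q((X_1, …, X_n) ∈ C, X_{n+1} ∈ B) = 𝔼[1_{(X_1, …, X_n) ∈ C} κ(X_n, B)]`. -/
structure IsMarkov (Q : Measure Ω') (X : ℕ → Ω' → S') (κ : Kernel S' S') : Prop where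
  measurable : ∀ n, Measurable (X n)
  markov : ∀ (n : ℕ) (C : Set (Fin (n + 1) → S')) (B : Set S'), MeasurableSet C →
    MeasurableSet B →
    Q {ω | (fun i : Fin (n + 1) => X i ω) ∈ C ∧ X (n + 1) ω ∈ B} =
      ∫⁻ ω in {ω | (fun i : Fin (n + 1) => X i ω) ∈ C}, κ (X n ω) B ∂Q

/-- The process is of rank `r`: `κ(x, B) = ∑_j a_j(x) b_j(B)` with `r` measurable functions `a_j`
and `r` finite signed measures `b_j` which are linearly independent, and no nontrivial relation
`∑ c_j a_j(x) = 0` holds outside a null set. -/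
def HasRank (Q : Measure Ω') (X : ℕ → Ω' → S') (κ : Kernel S' S') (r : ℕ) : Prop :=
  ∃ (a : Fin r → S' → ℝ) (b : Fin r → SignedMeasure S'),
    (∀ j, Measurable (a j)) ∧
    (∀ (x : S') (B : Set S'), MeasurableSet B → (κ x B).toReal = ∑ j, a j x * b j B) ∧
    LinearIndependent ℝ b ∧
    ∀ c : Fin r → ℝ, c ≠ 0 → ∀ N : Set S', MeasurableSet N → (∀ n, Q {ω | X n ω ∈ N} = 0) →
      ∃ x, x ∉ N ∧ ∑ j, c j * a j x ≠ 0

end markov

/-! ### The combinatorial core -/

section core

variable {S' : Type u} [MeasurableSpace S'] {r : ℕ}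

/-- Colouring lemma. `m i` are measures in an `r`-dimensional space of set functions, `h j` are
functions in an `r`-dimensional space. -/
lemma coloring (a : Fin r → S' → ℝ) (b : Fin r → Set S' → ℝ) (m : ℕ → Measure S')
    (lam bet : ℕ → Fin r → ℝ)
    (hm : ∀ i B, MeasurableSet B → (m i B).toReal = ∑ k, lam i k * b k B)
    (hfin : ∀ i, m i univ ≠ ⊤)
    (h : ℕ → S' → ℝ) (hmeas : ∀ j, Measurable (h j)) (h0 : ∀ j x, 0 ≤ h j x)
    (hh : ∀ j x, h j x = ∑ k, bet j k * a k x)
    (T : Set S') (hT : MeasurableSet T) :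
    ∃ (K : Type) (_ : Finite K) (c : ℕ → K), ∀ n n', c n = c n' →
      m n (T ∩ {x | 0 < h n x}) = 0 → m n' (T ∩ {x | 0 < h n x}) = 0 := by
  classical
  -- the space of relations valid on `T`
  let rel : Set S' → Submodule ℝ (Fin r → ℝ) := fun T =>
    { carrier := {v | ∀ x ∈ T, ∑ k, v k * a k x = 0}
      add_mem' := by
        intro v w hv hw x hx
        simp only [Pi.add_apply, add_mul, Finset.sum_add_distrib, hv x hx, hw x hx, add_zero]
      zero_mem' := by intro x _; simp
      smul_mem' := by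
        intro t v hv x hx
        simp only [Pi.smul_apply, smul_eq_mul, mul_assoc, ← Finset.mul_sum, hv x hx, mul_zero] }
  have key : ∀ W : Submodule ℝ (Fin r → ℝ), ∀ T : Set S', MeasurableSet T → rel T = W →
      ∃ (K : Type) (_ : Finite K) (c : ℕ → K), ∀ n n', c n = c n' →
      m n (T ∩ {x | 0 < h n x}) = 0 → m n' (T ∩ {x | 0 < h n x}) = 0 := by
    intro W
    induction W using WellFoundedGT.induction with
    | ind W ih =>
      intro T hT hW
      subst hW
      -- indices of interest
      let N : Set ℕ := {i | m i (T ∩ {x | 0 < h i x}) = 0 ∧ bet i ∉ rel T}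
      obtain ⟨s, hsN, hs⟩ : ∃ s : Finset (Fin r → ℝ), ↑s ⊆ lam '' N ∧
          Submodule.span ℝ (lam '' N) = Submodule.span ℝ (s : Set (Fin r → ℝ)) :=
        (Submodule.fg_span_iff_fg_span_finset_subset _).1 (IsNoetherian.noetherian _)
      obtain ⟨I, hIN, hI⟩ : ∃ I : Finset ℕ, ↑I ⊆ N ∧ I.image lam = s := by
        obtain ⟨I, hI1, hI2⟩ := Finset.subset_set_image_iff.1 hsN
        exact ⟨I, hI1, hI2⟩
      -- apply the induction hypothesis to the pieces
      have hpiece : ∀ i : I, ∃ (K : Type) (_ : Finite K) (c : ℕ → K), ∀ n n', c n = c n' →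
          m n ((T ∩ {x | h i x = 0}) ∩ {x | 0 < h n x}) = 0 →
          m n' ((T ∩ {x | h i x = 0}) ∩ {x | 0 < h n x}) = 0 := by
        intro i
        have hi := hIN i.2
        refine ih (rel (T ∩ {x | h i x = 0})) ?_ _
          (hT.inter ((hmeas i) (measurableSet_singleton 0))) rfl
        refine lt_of_le_of_ne (fun v hv x hx => hv x hx.1) ?_
        intro heq
        apply hi.2
        rw [heq]
        intro x hx
        have := hx.2
        simp only [mem_ofPred_eq] at this
        rw [← hh, this]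
      choose K hK c hc using hpiece
      refine ⟨Prop × ((i : I) → K i), inferInstance, fun n => (n ∈ N, fun i => c i n), ?_⟩
      intro n n' hnn' hn
      simp only [Prod.mk.injEq, eq_iff_iff] at hnn'
      obtain ⟨hN', hcc⟩ := hnn'
      by_cases hnN : n ∈ N
      · have hn'N := hN'.1 hnN
        -- T is covered by the pieces
        have hcover : T ∩ {x | 0 < h n x} ⊆ (T ∩ ⋂ i ∈ I, {x | 0 < h i x}) ∪
            ⋃ i : I, ((T ∩ {x | h i x = 0}) ∩ {x | 0 < h n x}) := by
          intro x hx
          by_cases hx' : ∀ i ∈ I, 0 < h i x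
          · left
            exact ⟨hx.1, by simpa using hx'⟩
          · right
            push Not at hx'
            obtain ⟨i, hi, hix⟩ := hx'
            refine mem_iUnion.2 ⟨⟨i, hi⟩, ⟨hx.1, ?_⟩, hx.2⟩
            exact le_antisymm hix (h0 i x)
        refine measure_mono_null hcover ?_
        rw [measure_union_null_iff]
        constructor
        · -- first piece
          have hmT : MeasurableSet (T ∩ ⋂ i ∈ I, {x | 0 < h i x}) :=
            hT.inter (Finset.measurableSet_biInter _ fun i _ =>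
              measurableSet_lt measurable_const (hmeas i))
          have hzero : ∀ i ∈ I, ∑ k, lam i k * b k (T ∩ ⋂ i ∈ I, {x | 0 < h i x}) = 0 := by
            intro i hi
            rw [← hm i _ hmT]
            have : m i (T ∩ ⋂ i ∈ I, {x | 0 < h i x}) = 0 := by
              refine measure_mono_null ?_ (hIN hi).1
              exact inter_subset_inter_right _ (biInter_subset_of_mem hi)
            rw [this]; rfl
          have hspan : lam n' ∈ Submodule.span ℝ (s : Set (Fin r → ℝ)) := by
            rw [← hs]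
            exact Submodule.subset_span (mem_image_of_mem _ hn'N)
          have hz : ∑ k, lam n' k * b k (T ∩ ⋂ i ∈ I, {x | 0 < h i x}) = 0 := by
            refine Submodule.span_induction (p := fun v _ =>
              ∑ k, v k * b k (T ∩ ⋂ i ∈ I, {x | 0 < h i x}) = 0) ?_ ?_ ?_ ?_ hspan
            · intro v hv
              rw [← hI] at hv
              simp only [Finset.coe_image, mem_image, Finset.mem_coe] at hv
              obtain ⟨i, hi, rfl⟩ := hv
              exact hzero i hi
            · simp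
            · intro v w _ _ hv hw
              simp only [Pi.add_apply, add_mul, Finset.sum_add_distrib, hv, hw, add_zero]
            · intro t v _ hv
              simp only [Pi.smul_apply, smul_eq_mul, mul_assoc, ← Finset.mul_sum, hv, mul_zero]
          rw [← hm n' _ hmT] at hz
          rcases (ENNReal.toReal_eq_zero_iff _).1 hz with hz | hz
          · exact hz
          · exact absurd (top_le_iff.1 (hz ▸ measure_mono (subset_univ _))) (hfin n')
        · rw [measure_iUnion_null_iff]
          intro i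
          refine hc i n n' (congrFun hcc i) (measure_mono_null ?_ hn)
          exact inter_subset_inter_left _ inter_subset_left
      · -- `n` is not of interest, so `h n` vanishes on `T`
        have hb : bet n ∈ rel T := by
          by_contra hb
          exact hnN ⟨hn, hb⟩
        have : T ∩ {x | 0 < h n x} = ∅ := by
          ext x
          simp only [mem_inter_iff, mem_ofPred_eq, mem_empty_iff_false, iff_false, not_and, not_lt]
          intro hx
          rw [hh]
          exact (hb x hx).le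
        rw [this, measure_empty]
  exact key _ T hT rfl

/-- The hidden-state obstruction: a process `Y` with `Y = φ(X)` in law (three time steps) for a
Markov process `X` of finite rank cannot have `P(Y_1 = i, Y_3 = j) = 0` exactly for `i = j`. -/
lemma obstruction {Ω' : Type v} [MeasurableSpace Ω'] (Q : Measure Ω') [IsProbabilityMeasure Q]
    (X : ℕ → Ω' → S') (κ : Kernel S' S') [IsMarkovKernel κ] (φ : S' → ℕ) (hφ : Measurable φ)
    (hX : IsMarkov Q X κ) (hr : HasRank Q X κ r)
    (hzero : ∀ i, Q {ω | φ (X 0 ω) = i ∧ φ (X 2 ω) = i} = 0)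
    (hpos : ∀ i j, i ≠ j → Q {ω | φ (X 0 ω) = i ∧ φ (X 2 ω) = j} ≠ 0) : False := by
  classical
  obtain ⟨a, b, ha, hab, hli, -⟩ := hr
  -- the functions `a_k` are bounded
  have hspan : Submodule.span ℝ {v : Fin r → ℝ | ∃ B, MeasurableSet B ∧ v = fun k => b k B} = ⊤ := by
    by_contra hne
    obtain ⟨f, hf0, hf⟩ := Submodule.exists_le_ker_of_lt_top _ (lt_top_iff_ne_top.2 hne)
    apply hf0
    have hc : ∀ v : Fin r → ℝ, f v = ∑ k, f (Pi.single k 1) * v k := by
      intro v
      conv_lhs => rw [← Finset.univ_sum_single v]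
      rw [map_sum]
      refine Finset.sum_congr rfl fun k _ => ?_
      have : (Pi.single k (v k) : Fin r → ℝ) = v k • Pi.single k 1 := by
        rw [← Pi.single_smul, smul_eq_mul, mul_one]
      rw [this, map_smul, smul_eq_mul, mul_comm]
    have hz : ∑ k, f (Pi.single k 1) • b k = 0 := by
      ext B hB
      have h1 := hf (Submodule.subset_span ⟨B, hB, rfl⟩)
      rw [LinearMap.mem_ker, hc] at h1
      simpa using h1
    have h2 := Fintype.linearIndependent_iff.1 hli _ hz
    ext k
    simpa using h2 k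
  have hbdd : ∀ v : Fin r → ℝ, ∃ C : ℝ, ∀ x, |∑ k, v k * a k x| ≤ C := by
    intro v
    have hv : v ∈ Submodule.span ℝ {v : Fin r → ℝ | ∃ B, MeasurableSet B ∧ v = fun k => b k B} := by
      rw [hspan]; trivial
    refine Submodule.span_induction (p := fun v _ => ∃ C : ℝ, ∀ x, |∑ k, v k * a k x| ≤ C)
      ?_ ?_ ?_ ?_ hv
    · rintro v ⟨B, hB, rfl⟩
      refine ⟨1, fun x => ?_⟩
      have : ∑ k, b k B * a k x = (κ x B).toReal := by
        rw [hab x B hB]
        exact Finset.sum_congr rfl fun k _ => mul_comm _ _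
      rw [this, abs_of_nonneg ENNReal.toReal_nonneg]
      exact measureReal_le_one
    · exact ⟨0, fun x => by simp⟩
    · rintro v w _ _ ⟨C, hC⟩ ⟨D, hD⟩
      refine ⟨C + D, fun x => ?_⟩
      simp only [Pi.add_apply, add_mul, Finset.sum_add_distrib]
      exact (abs_add_le _ _).trans (add_le_add (hC x) (hD x))
    · rintro t v _ ⟨C, hC⟩
      refine ⟨|t| * C, fun x => ?_⟩
      simp only [Pi.smul_apply, smul_eq_mul, mul_assoc, ← Finset.mul_sum, abs_mul]
      exact mul_le_mul_of_nonneg_left (hC x) (abs_nonneg t)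
  have habd : ∀ k, ∃ C : ℝ, ∀ x, |a k x| ≤ C := by
    intro k
    obtain ⟨C, hC⟩ := hbdd (Pi.single k 1)
    refine ⟨C, fun x => ?_⟩
    have := hC x
    simpa [Pi.single_apply] using this
  -- the sets `X_1 ∈ φ⁻¹ i`
  let U : ℕ → Set Ω' := fun i => {ω | φ (X 0 ω) = i}
  have hU : ∀ i, MeasurableSet (U i) := fun i =>
    (hφ.comp (hX.measurable 0)) (measurableSet_singleton i)
  let m : ℕ → Measure S' := fun i => (Q.restrict (U i)).map (X 1)
  let lam : ℕ → Fin r → ℝ := fun i k => ∫ ω in U i, a k (X 0 ω) ∂Q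
  let h : ℕ → S' → ℝ := fun j x => (κ x (φ ⁻¹' {j})).toReal
  let bet : ℕ → Fin r → ℝ := fun j k => b k (φ ⁻¹' {j})
  have hφj : ∀ j, MeasurableSet (φ ⁻¹' {j}) := fun j => hφ (measurableSet_singleton j)
  have hmval : ∀ i B, MeasurableSet B → m i B = ∫⁻ ω in U i, κ (X 0 ω) B ∂Q := by
    intro i B hB
    have h1 := hX.markov 0 {x | φ (x 0) = i} B
      ((hφ.comp (measurable_pi_apply 0)) (measurableSet_singleton i)) hB
    simp only [m]
    rw [Measure.map_apply (hX.measurable 1) hB, Measure.restrict_apply ((hX.measurable 1) hB)]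
    refine Eq.trans ?_ h1
    congr 1
    ext ω
    simp only [mem_inter_iff, mem_preimage, U, mem_ofPred_eq]
    exact and_comm
  have hint : ∀ k, Integrable (fun ω => a k (X 0 ω)) Q := by
    intro k
    obtain ⟨C, hC⟩ := habd k
    exact Integrable.of_bound ((ha k).comp (hX.measurable 0)).aestronglyMeasurable C
      (Filter.Eventually.of_forall fun ω => hC _)
  have hm : ∀ i B, MeasurableSet B → (m i B).toReal = ∑ k, lam i k * b k B := by
    intro i B hB
    rw [hmval i B hB]
    have h1 : (∫⁻ ω in U i, κ (X 0 ω) B ∂Q).toReal = ∫ ω in U i, (κ (X 0 ω) B).toReal ∂Q := by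
      rw [integral_toReal]
      · exact ((κ.measurable_coe hB).comp (hX.measurable 0)).aemeasurable
      · exact Filter.Eventually.of_forall fun ω => measure_lt_top _ _
    rw [h1]
    have h2 : ∀ ω, (κ (X 0 ω) B).toReal = ∑ k, a k (X 0 ω) * b k B := fun ω => hab _ _ hB
    simp_rw [h2]
    rw [integral_finsetSum]
    · exact Finset.sum_congr rfl fun k _ => by rw [integral_mul_const]
    · intro k _
      exact ((hint k).mul_const _).integrableOn
  obtain ⟨K, hK, c, hc⟩ := coloring a (fun k B => b k B) m lam bet hm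
    (fun i => measure_ne_top _ _) h
    (fun j => (κ.measurable_coe (hφj j)).ennreal_toReal)
    (fun j x => ENNReal.toReal_nonneg)
    (fun j x => by
      simp only [h, bet]
      rw [hab x _ (hφj j)]
      exact Finset.sum_congr rfl fun k _ => mul_comm _ _) univ MeasurableSet.univ
  obtain ⟨n, n', hne, hcc⟩ := Finite.exists_ne_map_eq_of_infinite c
  have hF : ∀ i j, Q {ω | φ (X 0 ω) = i ∧ φ (X 2 ω) = j} = ∫⁻ x, κ x (φ ⁻¹' {j}) ∂(m i) := by
    intro i j
    have h1 := hX.markov 1 {x | φ (x 0) = i} (φ ⁻¹' {j})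
      ((hφ.comp (measurable_pi_apply 0)) (measurableSet_singleton i)) (hφj j)
    simp only [m]
    rw [lintegral_map (κ.measurable_coe (hφj j)) (hX.measurable 1)]
    exact h1
  have hnull : ∀ i j, m i (univ ∩ {x | 0 < h j x}) = 0 ↔
      Q {ω | φ (X 0 ω) = i ∧ φ (X 2 ω) = j} = 0 := by
    intro i j
    rw [hF, lintegral_eq_zero_iff (κ.measurable_coe (hφj j)), univ_inter]
    rw [Filter.EventuallyEq, ae_iff]
    have : {x | 0 < h j x} = {x | ¬ κ x (φ ⁻¹' {j}) = (0 : S' → ENNReal) x} := by
      ext x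
      simp only [h, mem_ofPred_eq, Pi.zero_apply, ENNReal.toReal_pos_iff]
      constructor
      · intro hx
        exact hx.1.ne'
      · intro hx
        exact ⟨pos_iff_ne_zero.2 hx, measure_lt_top _ _⟩
    rw [this]
  have h1 := hc n n' hcc ((hnull n n).2 (hzero n))
  exact hpos n' n hne.symm ((hnull n' n).1 h1)

end core

/-! ### The process -/

section process

/-- The geometric law with parameter `1/2` on `ℕ`. -/
def rho : Measure ℕ := geometricMeasure ⟨1 / 2, by norm_num, by norm_num⟩

instance : IsProbabilityMeasure rho := by unfold rho; infer_instance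

lemma rho_singleton (n : ℕ) : rho {n} ≠ 0 := by
  have h := geometricMeasure_real_singleton_pos (p := ⟨1 / 2, by norm_num, by norm_num⟩)
    (by intro h; have := congrArg Subtype.val h; norm_num at this)
    (by intro h; have := congrArg Subtype.val h; norm_num at this) n
  intro h0
  rw [measureReal_def] at h
  rw [rho] at h0
  rw [h0] at h
  simp at h

/-- The bounded injective sequence `1/(i+1)`. -/
def xs (i : ℕ) : ℝ := 1 / ((i : ℝ) + 1)

lemma xs_pos (i : ℕ) : 0 < xs i := by unfold xs; positivity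

lemma xs_le (i : ℕ) : xs i ≤ 1 := by
  unfold xs
  rw [div_le_one (by positivity)]
  linarith [(Nat.cast_nonneg i : (0 : ℝ) ≤ i)]

lemma xs_inj {i j : ℕ} (h : xs i = xs j) : i = j := by
  unfold xs at h
  rw [div_eq_div_iff (by positivity) (by positivity)] at h
  have : (i : ℝ) = j := by linarith
  exact_mod_cast this

/-- The density `(1/(i+1) - 1/(j+1))^2`. -/
def D (ω : ℕ × ℕ) : ℝ := (xs ω.1 - xs ω.2) ^ 2

lemma D_nonneg (ω : ℕ × ℕ) : 0 ≤ D ω := sq_nonneg _

lemma D_le (ω : ℕ × ℕ) : D ω ≤ 1 := by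
  unfold D
  rw [sq_le_one_iff_abs_le_one, abs_le]
  have h1 := xs_pos ω.1
  have h2 := xs_pos ω.2
  have h3 := xs_le ω.1
  have h4 := xs_le ω.2
  constructor <;> linarith

lemma integrable_bdd (f : ℕ × ℕ → ℝ) (C : ℝ) (h : ∀ ω, |f ω| ≤ C) (μ : Measure (ℕ × ℕ))
    [IsFiniteMeasure μ] : Integrable f μ :=
  Integrable.of_bound (Measurable.of_discrete).aestronglyMeasurable C
    (Filter.Eventually.of_forall fun _ => h _)

lemma integrable_bdd' (f : ℕ → ℝ) (C : ℝ) (h : ∀ ω, |f ω| ≤ C) (μ : Measure ℕ)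
    [IsFiniteMeasure μ] : Integrable f μ :=
  Integrable.of_bound (Measurable.of_discrete).aestronglyMeasurable C
    (Filter.Eventually.of_forall fun _ => h _)

/-- The normalising constant. -/
def Z : ℝ := ∫ ω, D ω ∂(rho.prod rho)

lemma prod_singleton (i j : ℕ) : (rho.prod rho) {(i, j)} = rho {i} * rho {j} := by
  rw [← Set.singleton_prod_singleton, Measure.prod_prod]

lemma integrable_D : Integrable D (rho.prod rho) :=
  integrable_bdd D 1 (fun ω => by rw [abs_of_nonneg (D_nonneg ω)]; exact D_le ω) _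

lemma Z_pos : 0 < Z := by
  unfold Z
  rw [integral_pos_iff_support_of_nonneg D_nonneg integrable_D]
  refine lt_of_lt_of_le ?_ (measure_mono (s := {((0 : ℕ), (1 : ℕ))}) ?_)
  · rw [prod_singleton]
    exact pos_iff_ne_zero.2 (mul_ne_zero (rho_singleton 0) (rho_singleton 1))
  · intro ω hω
    rw [mem_singleton_iff] at hω
    subst hω
    simp only [Function.mem_support, D, xs]
    norm_num

/-- The probability measure on `ℕ × ℕ` with mass proportional to
`2^{-i} 2^{-j} (1/(i+1) - 1/(j+1))^2` at `(i, j)`. -/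
def PP : Measure (ℕ × ℕ) :=
  (rho.prod rho).withDensity fun ω => ENNReal.ofReal (D ω / Z)

instance : IsProbabilityMeasure PP := by
  constructor
  unfold PP
  rw [withDensity_apply _ MeasurableSet.univ, Measure.restrict_univ,
    ← ofReal_integral_eq_lintegral_ofReal]
  · rw [integral_div]
    change ENNReal.ofReal (Z / Z) = 1
    rw [div_self Z_pos.ne', ENNReal.ofReal_one]
  · exact integrable_D.div_const _
  · exact Filter.Eventually.of_forall fun ω => div_nonneg (D_nonneg ω) Z_pos.le

lemma integral_PP (f : ℕ × ℕ → ℝ) : ∫ ω, f ω ∂PP = ∫ ω, D ω / Z * f ω ∂(rho.prod rho) := by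
  unfold PP
  rw [integral_withDensity_eq_integral_toReal_smul]
  · refine integral_congr_ae (Filter.Eventually.of_forall fun ω => ?_)
    simp only [smul_eq_mul]
    rw [ENNReal.toReal_ofReal (div_nonneg (D_nonneg ω) Z_pos.le)]
  · exact Measurable.of_discrete
  · exact Filter.Eventually.of_forall fun ω => ENNReal.ofReal_lt_top

lemma PP_singleton (i j : ℕ) :
    PP {(i, j)} = ENNReal.ofReal (D (i, j) / Z) * (rho {i} * rho {j}) := by
  unfold PP
  rw [withDensity_apply _ (measurableSet_singleton _), lintegral_singleton, prod_singleton]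

/-- The random sequence `Y = (i, 0, j, 0, 0, …)` on the probability space `ℕ × ℕ`. -/
def YY (n : ℕ) (ω : ℕ × ℕ) : ℕ := if n = 0 then ω.1 else if n = 2 then ω.2 else 0

lemma YY_meas (n : ℕ) : Measurable (YY n) := Measurable.of_discrete

end process

/-! ### `L` is finite-dimensional -/

section findim

/-- Evaluation of an element of `A` along an infinite sequence. -/
def ev {S : Type u} [MeasurableSpace S] (y : ℕ → S) : A S →ₗ[ℝ] ℝ :=
  DirectSum.toModule ℝ ℕ ℝ fun n =>
    { toFun := fun f => f.1 (fun i : Fin n => y i)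
      map_add' := fun _ _ => rfl
      map_smul' := fun _ _ => rfl }

lemma ev_lof {S : Type u} [MeasurableSpace S] (y : ℕ → S) (n : ℕ) (g : An S n) :
    ev y (DirectSum.lof ℝ ℕ (fun k => An S k) n g) = g.1 (fun i : Fin n => y i) := by
  unfold ev
  rw [DirectSum.toModule_lof]
  rfl

lemma ev_bdd {S : Type u} [MeasurableSpace S] (η : A S) : ∃ C : ℝ, ∀ y, |ev y η| ≤ C := by
  induction η using DirectSum.induction_on with
  | zero => exact ⟨0, fun y => by simp⟩
  | of n g =>
    obtain ⟨C, hC⟩ := g.2.2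
    refine ⟨C, fun y => ?_⟩
    have := ev_lof y n g
    rw [DirectSum.lof_eq_of] at this
    rw [this]
    exact hC _
  | add a b ha hb =>
    obtain ⟨C, hC⟩ := ha
    obtain ⟨C', hC'⟩ := hb
    refine ⟨C + C', fun y => ?_⟩
    rw [map_add]
    exact (abs_add_le _ _).trans (add_le_add (hC y) (hC' y))

lemma mul_lof_lof {S : Type u} [MeasurableSpace S] (m n : ℕ) (f : An S m) (g : An S n) :
    mul (DirectSum.lof ℝ ℕ (fun k => An S k) m f) (DirectSum.lof ℝ ℕ (fun k => An S k) n g) =
      DirectSum.lof ℝ ℕ (fun k => An S k) (m + n) (concat m n f g) := by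
  unfold mul
  rw [DirectSum.toModule_lof, LinearMap.flip_apply, DirectSum.toModule_lof]
  rfl

lemma E_lof {S : Type u} [MeasurableSpace S] {Ω : Type v} [MeasurableSpace Ω] (P : Measure Ω)
    [IsProbabilityMeasure P] (Y : ℕ → Ω → S) (hY : ∀ n, Measurable (Y n)) (n : ℕ) (g : An S n) :
    E P Y hY (DirectSum.lof ℝ ℕ (fun k => An S k) n g) = ∫ ω, g.1 (fun i : Fin n => Y i ω) ∂P := by
  unfold E
  rw [DirectSum.toModule_lof]
  rfl

lemma bdd_mul_ev {m : ℕ} (f : An ℕ m) (η : A ℕ) (y : ℕ × ℕ → ℕ → ℕ) (z : ℕ × ℕ → Fin m → ℕ) :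
    ∃ C : ℝ, ∀ ω, |f.1 (z ω) * ev (y ω) η| ≤ C := by
  obtain ⟨C, hC⟩ := f.2.2
  obtain ⟨C', hC'⟩ := ev_bdd η
  refine ⟨C * C', fun ω => ?_⟩
  rw [abs_mul]
  exact mul_le_mul (hC _) (hC' _) (abs_nonneg _) ((abs_nonneg _).trans (hC (z ω)))

lemma E_mul (m : ℕ) (f : An ℕ m) (η : A ℕ) :
    E PP YY YY_meas (mul (DirectSum.lof ℝ ℕ (fun k => An ℕ k) m f) η) =
      ∫ ω, f.1 (fun i : Fin m => YY i ω) * ev (fun k => YY (m + k) ω) η ∂PP := by
  induction η using DirectSum.induction_on with
  | zero => simp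
  | of n g =>
    have h := mul_lof_lof m n f g
    have h2 := fun ω => ev_lof (fun k => YY (m + k) ω) n g
    rw [DirectSum.lof_eq_of ℝ ℕ _ n] at h h2
    rw [h, E_lof]
    refine integral_congr_ae (Filter.Eventually.of_forall fun ω => ?_)
    simp only
    rw [h2]
    rfl
  | add a b ha hb =>
    rw [map_add, map_add, ha, hb]
    obtain ⟨C, hC⟩ := bdd_mul_ev f a (fun ω k => YY (m + k) ω) (fun ω i => YY i ω)
    obtain ⟨C', hC'⟩ := bdd_mul_ev f b (fun ω k => YY (m + k) ω) (fun ω i => YY i ω)
    rw [← integral_add (integrable_bdd _ C hC _) (integrable_bdd _ C' hC' _)]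
    refine integral_congr_ae (Filter.Eventually.of_forall fun ω => ?_)
    simp only
    rw [map_add, mul_add]

/-- The functional `η ↦ ∫ u(j) η(y_j) dρ(j)`. -/
def intEv (u : ℕ → ℝ) (C : ℝ) (hu : ∀ j, |u j| ≤ C) (y : ℕ → ℕ → ℕ) : A ℕ →ₗ[ℝ] ℝ where
  toFun η := ∫ j, u j * ev (y j) η ∂rho
  map_add' := by
    intro a b
    have hint : ∀ a : A ℕ, Integrable (fun j => u j * ev (y j) a) rho := by
      intro a
      obtain ⟨C', hC'⟩ := ev_bdd a
      refine integrable_bdd' _ (C * C') (fun j => ?_) _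
      rw [abs_mul]
      exact mul_le_mul (hu _) (hC' _) (abs_nonneg _) ((abs_nonneg _).trans (hu j))
    rw [← integral_add (hint a) (hint b)]
    refine integral_congr_ae (Filter.Eventually.of_forall fun ω => ?_)
    simp only
    rw [map_add, mul_add]
  map_smul' := by
    intro c a
    simp only [map_smul, smul_eq_mul, RingHom.id_apply]
    rw [← integral_const_mul]
    refine integral_congr_ae (Filter.Eventually.of_forall fun ω => ?_)
    simp only
    ring

lemma xpow_le (p : ℕ) (j : ℕ) : |xs j ^ p| ≤ 1 := by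
  rw [abs_of_nonneg (pow_nonneg (xs_pos j).le p)]
  exact pow_le_one₀ (xs_pos j).le (xs_le j)

lemma prod_formula (F G : ℕ → ℝ) (CF CG : ℝ) (hF : ∀ i, |F i| ≤ CF) (hG : ∀ i, |G i| ≤ CG) :
    ∫ ω, F ω.1 * G ω.2 ∂PP =
      Z⁻¹ * ((∫ i, F i * xs i ^ 2 ∂rho) * (∫ j, xs j ^ 0 * G j ∂rho)
        - 2 * (∫ i, F i * xs i ^ 1 ∂rho) * (∫ j, xs j ^ 1 * G j ∂rho)
        + (∫ i, F i * xs i ^ 0 ∂rho) * (∫ j, xs j ^ 2 * G j ∂rho)) := by
  have hb : ∀ p q : ℕ, Integrable (fun ω : ℕ × ℕ => (F ω.1 * xs ω.1 ^ p) * (xs ω.2 ^ q * G ω.2))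
      (rho.prod rho) := by
    intro p q
    refine integrable_bdd _ ((CF * 1) * (1 * CG)) (fun ω => ?_) _
    rw [abs_mul, abs_mul, abs_mul]
    have h0 : 0 ≤ CF := (abs_nonneg _).trans (hF 0)
    exact mul_le_mul (mul_le_mul (hF _) (xpow_le _ _) (abs_nonneg _) h0)
      (mul_le_mul (xpow_le _ _) (hG _) (abs_nonneg _) zero_le_one)
      (mul_nonneg (abs_nonneg _) (abs_nonneg _)) (by positivity)
  have hi : ∀ p q : ℕ, ∫ ω, (F ω.1 * xs ω.1 ^ p) * (xs ω.2 ^ q * G ω.2) ∂(rho.prod rho) =
      (∫ i, F i * xs i ^ p ∂rho) * (∫ j, xs j ^ q * G j ∂rho) := by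
    intro p q
    exact integral_prod_mul (fun i => F i * xs i ^ p) (fun j => xs j ^ q * G j)
  rw [integral_PP]
  have h1 : ∀ ω : ℕ × ℕ, D ω / Z * (F ω.1 * G ω.2) =
      Z⁻¹ * ((F ω.1 * xs ω.1 ^ 2) * (xs ω.2 ^ 0 * G ω.2)
        - 2 * ((F ω.1 * xs ω.1 ^ 1) * (xs ω.2 ^ 1 * G ω.2))
        + (F ω.1 * xs ω.1 ^ 0) * (xs ω.2 ^ 2 * G ω.2)) := by
    intro ω
    unfold D
    ring
  simp_rw [h1]
  have hs : Integrable (fun ω : ℕ × ℕ => (F ω.1 * xs ω.1 ^ 2) * (xs ω.2 ^ 0 * G ω.2)
      - 2 * ((F ω.1 * xs ω.1 ^ 1) * (xs ω.2 ^ 1 * G ω.2))) (rho.prod rho) :=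
    (hb 2 0).sub ((hb 1 1).const_mul 2)
  rw [integral_const_mul, integral_add hs (hb 0 2),
    integral_sub (hb 2 0) ((hb 1 1).const_mul 2), integral_const_mul, hi, hi, hi]
  ring

/-- The sequences `(0, j, 0, 0, …)`. -/
def seqC (j k : ℕ) : ℕ := if k = 1 then j else 0

/-- The sequences `(j, 0, 0, …)`. -/
def seqD (j k : ℕ) : ℕ := if k = 0 then j else 0

/-- The unit of `A_0`. -/
def one0 : An ℕ 0 := ⟨fun _ => 1, measurable_const, 1, fun _ => by simp⟩

/-- Eight functionals on `A`. -/
def w : Fin 8 → (A ℕ →ₗ[ℝ] ℝ) :=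
  ![(E PP YY YY_meas) ∘ₗ (mul (DirectSum.lof ℝ ℕ (fun k => An ℕ k) 0 one0)),
    intEv (fun j => xs j ^ 0) 1 (xpow_le 0) seqC,
    intEv (fun j => xs j ^ 1) 1 (xpow_le 1) seqC,
    intEv (fun j => xs j ^ 2) 1 (xpow_le 2) seqC,
    intEv (fun j => xs j ^ 0) 1 (xpow_le 0) seqD,
    intEv (fun j => xs j ^ 1) 1 (xpow_le 1) seqD,
    intEv (fun j => xs j ^ 2) 1 (xpow_le 2) seqD,
    ev (fun _ => 0)]

lemma w_mem (i : Fin 8) : w i ∈ Submodule.span ℝ (range w) :=
  Submodule.subset_span ⟨i, rfl⟩

lemma combo_mem (y : ℕ → ℕ → ℕ) (F : ℕ → ℝ) (CF : ℝ) (hF : ∀ i, |F i| ≤ CF)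
    (L : A ℕ →ₗ[ℝ] ℝ) (hL : ∀ η, L η = ∫ ω, F ω.1 * ev (y ω.2) η ∂PP)
    (W : Submodule ℝ (A ℕ →ₗ[ℝ] ℝ)) (h0 : intEv (fun j => xs j ^ 0) 1 (xpow_le 0) y ∈ W)
    (h1 : intEv (fun j => xs j ^ 1) 1 (xpow_le 1) y ∈ W)
    (h2 : intEv (fun j => xs j ^ 2) 1 (xpow_le 2) y ∈ W) : L ∈ W := by
  have : L = (Z⁻¹ * (∫ i, F i * xs i ^ 2 ∂rho)) • intEv (fun j => xs j ^ 0) 1 (xpow_le 0) y
      + (-(Z⁻¹ * (2 * ∫ i, F i * xs i ^ 1 ∂rho))) • intEv (fun j => xs j ^ 1) 1 (xpow_le 1) y
      + (Z⁻¹ * (∫ i, F i * xs i ^ 0 ∂rho)) • intEv (fun j => xs j ^ 2) 1 (xpow_le 2) y := by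
    ext1 n
    refine LinearMap.ext fun g => ?_
    simp only [LinearMap.comp_apply]
    generalize (DirectSum.lof ℝ ℕ (fun k => An ℕ k) n) g = η
    obtain ⟨C, hC⟩ := ev_bdd η
    rw [hL, prod_formula F (fun j => ev (y j) η) CF C hF (fun j => hC _)]
    simp only [LinearMap.add_apply, LinearMap.smul_apply, smul_eq_mul, intEv, LinearMap.coe_mk,
      AddHom.coe_mk]
    ring
  rw [this]
  exact W.add_mem (W.add_mem (W.smul_mem _ h0) (W.smul_mem _ h1)) (W.smul_mem _ h2)

lemma functional_mem (ξ : A ℕ) :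
    (E PP YY YY_meas) ∘ₗ (mul ξ) ∈ Submodule.span ℝ (range w) := by
  induction ξ using DirectSum.induction_on with
  | zero => simp
  | add a b ha hb =>
    rw [map_add, LinearMap.comp_add]
    exact Submodule.add_mem _ ha hb
  | of m f =>
    have hE : ∀ η, ((E PP YY YY_meas) ∘ₗ (mul (DirectSum.of (fun k => An ℕ k) m f))) η =
        ∫ ω, f.1 (fun i : Fin m => YY i ω) * ev (fun k => YY (m + k) ω) η ∂PP := fun η => by
      have := E_mul m f η
      rw [DirectSum.lof_eq_of] at this
      exact this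
    obtain ⟨C, hC⟩ := f.2.2
    rcases Nat.lt_or_ge m 3 with hm | hm
    · interval_cases m
      · -- m = 0
        have : (E PP YY YY_meas) ∘ₗ (mul (DirectSum.of (fun k => An ℕ k) 0 f)) =
            (f.1 (fun i => i.elim0)) • w 0 := by
          refine LinearMap.ext fun η => ?_
          rw [hE, LinearMap.smul_apply]
          change _ = _ • (E PP YY YY_meas)
            (mul (DirectSum.lof ℝ ℕ (fun k => An ℕ k) 0 one0) η)
          rw [E_mul, smul_eq_mul, ← integral_const_mul]
          refine integral_congr_ae (Filter.Eventually.of_forall fun ω => ?_)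
          simp only [one0, one_mul]
          have e1 : (fun i : Fin 0 => YY i ω) = fun i => i.elim0 := by
            funext i
            exact i.elim0
          rw [e1]
        rw [this]
        exact Submodule.smul_mem _ _ (w_mem 0)
      · -- m = 1
        refine combo_mem seqC (fun i => f.1 (fun _ => i)) C (fun i => hC _) _ (fun η => ?_) _
          (w_mem 1) (w_mem 2) (w_mem 3)
        rw [hE]
        refine integral_congr_ae (Filter.Eventually.of_forall fun ω => ?_)
        have e1 : (fun i : Fin 1 => YY i ω) = fun _ => ω.1 := by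
          funext i
          simp [YY]
        have e2 : (fun k => YY (1 + k) ω) = seqC ω.2 := by
          funext k
          simp only [YY, seqC]
          by_cases hk : k = 1
          · subst hk; simp
          · rw [if_neg (by omega), if_neg (by omega), if_neg hk]
        simp only
        rw [e1, e2]
      · -- m = 2
        refine combo_mem seqD (fun i => f.1 (fun l => if l.1 = 0 then i else 0)) C
          (fun i => hC _) _ (fun η => ?_) _ (w_mem 4) (w_mem 5) (w_mem 6)
        rw [hE]
        refine integral_congr_ae (Filter.Eventually.of_forall fun ω => ?_)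
        have e1 : (fun i : Fin 2 => YY i ω) = fun l => if l.1 = 0 then ω.1 else 0 := by
          funext l
          have := l.2
          simp only [YY]
          by_cases hl : (l : ℕ) = 0
          · simp [hl]
          · rw [if_neg hl, if_neg (by omega), if_neg hl]
        have e2 : (fun k => YY (2 + k) ω) = seqD ω.2 := by
          funext k
          simp only [YY, seqD]
          by_cases hk : k = 0
          · subst hk; simp
          · rw [if_neg (by omega), if_neg (by omega), if_neg hk]
        simp only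
        rw [e1, e2]
    · -- m ≥ 3
      have : (E PP YY YY_meas) ∘ₗ (mul (DirectSum.of (fun k => An ℕ k) m f)) =
          (∫ ω, f.1 (fun i : Fin m => YY i ω) ∂PP) • w 7 := by
        refine LinearMap.ext fun η => ?_
        rw [hE, LinearMap.smul_apply]
        change _ = _ • ev (fun _ => 0) η
        rw [smul_eq_mul, ← integral_mul_const]
        refine integral_congr_ae (Filter.Eventually.of_forall fun ω => ?_)
        simp only
        congr 3
        funext k
        simp only [YY]
        rw [if_neg (by omega), if_neg (by omega)]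
      rw [this]
      exact Submodule.smul_mem _ _ (w_mem 7)

lemma ker_le_J : LinearMap.ker (LinearMap.pi w) ≤ J PP YY YY_meas := by
  intro η hη ξ
  rw [LinearMap.mem_ker] at hη
  have h : ∀ i, w i η = 0 := fun i => congrFun hη i
  have := functional_mem ξ
  refine Submodule.span_induction (p := fun l _ => l η = 0) ?_ ?_ ?_ ?_ this
  · rintro l ⟨i, rfl⟩
    exact h i
  · rfl
  · intro a b _ _ ha hb
    rw [LinearMap.add_apply, ha, hb, add_zero]
  · intro c a _ ha
    rw [LinearMap.smul_apply, ha, smul_zero]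

lemma finite_L : Module.Finite ℝ (L PP YY YY_meas) := by
  have h1 : Module.Finite ℝ (A ℕ ⧸ LinearMap.ker (LinearMap.pi w)) :=
    Module.Finite.equiv (LinearMap.quotKerEquivRange (LinearMap.pi w)).symm
  exact Module.Finite.of_surjective (Submodule.factor ker_le_J)
    (Submodule.factor_surjective ker_le_J)

end findim

/-- **Disproof of Q1.** There is a random sequence `Y` with values in `ℕ` whose space `L` is
finite-dimensional and whose law is not the law of `(φ(X_n))` for any Markov process `X` of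
finite rank, on any measurable space, and any measurable `φ`. -/
theorem result :
    ∃ (P : Measure (ℕ × ℕ)) (_ : IsProbabilityMeasure P) (Y : ℕ → ℕ × ℕ → ℕ)
      (hY : ∀ n, Measurable (Y n)),
      Module.Finite ℝ (L P Y hY) ∧
      ∀ (S' : Type u) [MeasurableSpace S'] (Ω' : Type v) [MeasurableSpace Ω'] (Q : Measure Ω')
        [IsProbabilityMeasure Q] (X : ℕ → Ω' → S') (κ : Kernel S' S') [IsMarkovKernel κ] (r : ℕ)
        (φ : S' → ℕ), Measurable φ → IsMarkov Q X κ → HasRank Q X κ r →
        ¬ ∀ n : ℕ, Q.map (fun ω (i : Fin n) => φ (X i ω)) = P.map (fun ω (i : Fin n) => Y i ω) := by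
  refine ⟨PP, inferInstance, YY, YY_meas, finite_L, ?_⟩
  intro S' _ Ω' _ Q _ X κ _ r φ hφ hX hr hlaw
  have h3 := hlaw 3
  have hset : ∀ i j : ℕ, Q {ω | φ (X 0 ω) = i ∧ φ (X 2 ω) = j} = PP {(i, j)} := by
    intro i j
    have hM : MeasurableSet {v : Fin 3 → ℕ | v 0 = i ∧ v 2 = j} := by
      have : {v : Fin 3 → ℕ | v 0 = i ∧ v 2 = j} =
          ((fun v : Fin 3 → ℕ => v 0) ⁻¹' {i}) ∩ ((fun v : Fin 3 → ℕ => v 2) ⁻¹' {j}) := by
        ext v; simp
      rw [this]
      exact ((measurable_pi_apply _) (measurableSet_singleton _)).inter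
        ((measurable_pi_apply _) (measurableSet_singleton _))
    have h4 := congrArg (fun μ => μ {v : Fin 3 → ℕ | v 0 = i ∧ v 2 = j}) h3
    have hm1 : Measurable fun (ω : Ω') (i : Fin 3) => φ (X i ω) :=
      measurable_pi_lambda _ fun i => hφ.comp (hX.measurable i)
    have hm2 : Measurable fun (ω : ℕ × ℕ) (i : Fin 3) => YY i ω :=
      measurable_pi_lambda _ fun i => YY_meas i
    rw [Measure.map_apply hm1 hM, Measure.map_apply hm2 hM] at h4
    refine Eq.trans h4 ?_
    congr 1
    ext ω
    simp only [mem_preimage, mem_ofPred_eq, YY, mem_singleton_iff, Prod.ext_iff]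
    simp
  refine obstruction Q X κ φ hφ hX hr (fun i => ?_) (fun i j hij => ?_)
  · rw [hset, PP_singleton]
    simp [D]
  · rw [hset, PP_singleton]
    refine mul_ne_zero ?_ (mul_ne_zero (rho_singleton i) (rho_singleton j))
    rw [Ne, ENNReal.ofReal_eq_zero, not_le]
    refine div_pos ?_ Z_pos
    unfold D
    have : xs i - xs j ≠ 0 := by
      intro h
      exact hij (xs_inj (by linarith))
    positivity

end

end Pool.Agent.Results.MP_d5803c_pr.NoFiniteRankCover
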